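import Pool.Agent.H92.EM.TA

/-!
# MP_75a732_an, board emd_modules, row MRF: the logarithm against the kernel
-/

set_option autoImplicit false

namespace Pool.Agent.H36.EM

open scoped BigOperators ComplexConjugate ContDiff ComplexOrder
open MeasureTheory Filter Topology Set Metric
open Pool.Agent.H92.EQ Pool.Agent.H92.EM

/-- multiplication by `β` on `ℂ`: change of variables -/
theorem mrf_cov {β : ℂ} (hβ : β ≠ 0) {g : ℂ → ENNReal} (hg : Measurable g) :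
    ∫⁻ t : ℂ, g (t * β) * ENNReal.ofReal (‖β‖ ^ 2) = ∫⁻ s : ℂ, g s := by
  have hb : 0 < ‖β‖ := norm_pos_iff.2 hβ
  have hdet : LinearMap.det (LinearMap.mulLeft ℝ β) = ‖β‖ ^ 2 := by
    have h1 : Algebra.norm ℝ β = LinearMap.det (LinearMap.mulLeft ℝ β) := rfl
    rw [← h1, Algebra.norm_complex_apply, Complex.normSq_eq_norm_sq]
  have hne : LinearMap.det (LinearMap.mulLeft ℝ β) ≠ 0 := by
    rw [hdet]
    positivity
  have h := Measure.map_linearMap_addHaar_eq_smul_addHaar (volume : Measure ℂ) hne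
  have hm : Measurable (fun t : ℂ => β * t) := by fun_prop
  have h2 : ∫⁻ t : ℂ, g (β * t) = ENNReal.ofReal |(‖β‖ ^ 2)⁻¹| * ∫⁻ s : ℂ, g s := by
    rw [← lintegral_map hg hm]
    have h3 : Measure.map (fun t : ℂ => β * t) volume =
        ENNReal.ofReal |(‖β‖ ^ 2)⁻¹| • (volume : Measure ℂ) := by
      rw [← hdet]
      exact h
    rw [h3, lintegral_smul_measure, smul_eq_mul]
  have h4 : ∀ t : ℂ, g (t * β) = g (β * t) := fun t => by rw [mul_comm]
  simp only [h4]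
  have hgm : Measurable (fun t : ℂ => g (β * t)) := hg.comp hm
  rw [lintegral_mul_const _ hgm, h2, mul_comm, ← mul_assoc, ← ENNReal.ofReal_mul (by positivity),
    abs_of_pos (by positivity), mul_inv_cancel₀ (by positivity), ENNReal.ofReal_one, one_mul]

/-- `1/|u|` is integrable near `0` -/
theorem mrf_inv : ∫⁻ u in ball (0 : ℂ) 1, ENNReal.ofReal ‖u‖⁻¹ < ⊤ := by
  rw [← lintegral_indicator measurableSet_ball, ← Complex.lintegral_comp_polarCoord_symm]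
  have h3 : ∀ p ∈ polarCoord.target, ENNReal.ofReal p.1 • (ball (0 : ℂ) 1).indicator
      (fun u => ENNReal.ofReal ‖u‖⁻¹) (Complex.polarCoord.symm p) ≤
        (Ioo (0 : ℝ) 1 ×ˢ Ioo (-Real.pi) Real.pi).indicator (fun _ => 1) p := by
    intro p hp
    have hp1 : 0 < p.1 := hp.1
    have hn : ‖Complex.polarCoord.symm p‖ = p.1 := by
      rw [Complex.norm_polarCoord_symm, abs_of_pos hp1]
    by_cases h : p.1 < 1
    · rw [indicator_of_mem (show Complex.polarCoord.symm p ∈ ball (0 : ℂ) 1 by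
        rw [mem_ball_zero_iff, hn]; exact h), indicator_of_mem
        (show p ∈ Ioo (0 : ℝ) 1 ×ˢ Ioo (-Real.pi) Real.pi from ⟨⟨hp1, h⟩, hp.2⟩), hn, smul_eq_mul,
        ← ENNReal.ofReal_mul hp1.le, mul_inv_cancel₀ hp1.ne']
      simp
    · rw [indicator_of_notMem (show Complex.polarCoord.symm p ∉ ball (0 : ℂ) 1 by
        rw [mem_ball_zero_iff, hn]; exact h)]
      simp
  refine (setLIntegral_mono' polarCoord.open_target.measurableSet h3).trans_lt ?_
  refine (setLIntegral_le_lintegral _ _).trans_lt ?_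
  rw [lintegral_indicator (measurableSet_Ioo.prod measurableSet_Ioo), setLIntegral_const,
    one_mul, Measure.volume_eq_prod, Measure.prod_prod]
  simp

theorem mrf_log_le (x : ℝ) (hx : 0 ≤ x) : Real.log (1 / x) ≤ x⁻¹ := by
  rcases hx.eq_or_lt with h | h
  · rw [← h]
    simp
  · have := Real.log_le_sub_one_of_pos (show 0 < 1 / x by positivity)
    rw [one_div] at this ⊢
    linarith

theorem mrf_log : ∫⁻ u in ball (0 : ℂ) 1, ENNReal.ofReal (Real.log (1 / ‖u‖)) < ⊤ :=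
  (lintegral_mono fun u => ENNReal.ofReal_le_ofReal
    (mrf_log_le _ (norm_nonneg u))).trans_lt mrf_inv

theorem mrf_ker : ∫⁻ u : ℂ, ENNReal.ofReal (1 / (‖u‖ ^ 2 + 1) ^ 2) < ⊤ := by
  have h : Integrable (fun u : ℂ => ((1 : ℝ) + ‖u‖ ^ 2) ^ (-(4 : ℝ) / 2)) :=
    integrable_rpow_neg_one_add_norm_sq (by rw [Complex.finrank_real_complex]; norm_num)
  have h2 := h.lintegral_lt_top
  refine lt_of_le_of_lt (lintegral_mono fun u => ENNReal.ofReal_le_ofReal (le_of_eq ?_)) h2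
  have h0 : (0 : ℝ) < 1 + ‖u‖ ^ 2 := by positivity
  rw [show (-(4 : ℝ) / 2) = -(2 : ℝ) by norm_num, Real.rpow_neg h0.le,
    show ((2 : ℝ)) = ((2 : ℕ) : ℝ) by norm_num, Real.rpow_natCast, one_div, add_comm]

/-- the integral of the kernel -/
theorem mrf_kernel (α : ℂ) {δ : ℝ} (hδ : 0 < δ) :
    ∫⁻ s : ℂ, ENNReal.ofReal (δ ^ 2 / (‖α + s‖ ^ 2 + δ ^ 2) ^ 2) =
      ∫⁻ u : ℂ, ENNReal.ofReal (1 / (‖u‖ ^ 2 + 1) ^ 2) := by
  rw [lintegral_add_left_eq_self (μ := (volume : Measure ℂ))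
    (fun s : ℂ => ENNReal.ofReal (δ ^ 2 / (‖s‖ ^ 2 + δ ^ 2) ^ 2)) α]
  have hδ' : (δ : ℂ) ≠ 0 := by exact_mod_cast hδ.ne'
  have hm : Measurable (fun s : ℂ => ENNReal.ofReal (δ ^ 2 / (‖s‖ ^ 2 + δ ^ 2) ^ 2)) := by
    fun_prop
  rw [← mrf_cov hδ' hm]
  refine lintegral_congr fun t => ?_
  rw [← ENNReal.ofReal_mul (by positivity), norm_mul, Complex.norm_real,
    Real.norm_of_nonneg hδ.le]
  congr 1
  have h1 : (‖t‖ * δ) ^ 2 + δ ^ 2 = δ ^ 2 * (‖t‖ ^ 2 + 1) := by ring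
  rw [h1]
  field_simp

/-- the integral of the logarithm over the small disc -/
theorem mrf_small {δ : ℝ} (hδ : 0 < δ) (hδ1 : δ ≤ 1) :
    ∫⁻ s : ℂ, (ball (0 : ℂ) δ).indicator (fun s =>
        ENNReal.ofReal (Real.log (1 / ‖s‖)) * ENNReal.ofReal ((δ ^ 2)⁻¹)) s ≤
      ENNReal.ofReal (Real.log (1 / δ)) * volume (ball (0 : ℂ) 1) +
        ∫⁻ u in ball (0 : ℂ) 1, ENNReal.ofReal (Real.log (1 / ‖u‖)) := by
  have hδ' : (δ : ℂ) ≠ 0 := by exact_mod_cast hδ.ne'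
  have hm : Measurable ((ball (0 : ℂ) δ).indicator (fun s : ℂ =>
      ENNReal.ofReal (Real.log (1 / ‖s‖)) * ENNReal.ofReal ((δ ^ 2)⁻¹))) := by
    refine Measurable.indicator ?_ measurableSet_ball
    fun_prop
  rw [← mrf_cov hδ' hm, ← setLIntegral_const, ← lintegral_add_left measurable_const,
    ← lintegral_indicator measurableSet_ball]
  refine lintegral_mono fun t => ?_
  have hn : ‖t * (δ : ℂ)‖ = ‖t‖ * δ := by
    rw [norm_mul, Complex.norm_real, Real.norm_of_nonneg hδ.le]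
  by_cases ht : ‖t‖ < 1
  · have h1 : t * (δ : ℂ) ∈ ball (0 : ℂ) δ := by
      rw [mem_ball_zero_iff, hn]
      calc ‖t‖ * δ < 1 * δ := mul_lt_mul_of_pos_right ht hδ
        _ = δ := one_mul δ
    have h2 : t ∈ ball (0 : ℂ) 1 := by rwa [mem_ball_zero_iff]
    rw [indicator_of_mem h1, indicator_of_mem h2, hn, Complex.norm_real,
      Real.norm_of_nonneg hδ.le, mul_assoc, ← ENNReal.ofReal_mul (by positivity),
      inv_mul_cancel₀ (by positivity), ENNReal.ofReal_one, mul_one]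
    refine le_trans (ENNReal.ofReal_le_ofReal ?_) ENNReal.ofReal_add_le
    rcases (norm_nonneg t).eq_or_lt with h0 | h0
    · rw [← h0]
      simp only [zero_mul, div_zero, Real.log_zero, add_zero]
      exact Real.log_nonneg (by rw [le_div_iff₀ hδ]; linarith)
    · rw [one_div, one_div, one_div, mul_inv, Real.log_mul (by positivity) (by positivity)]
      linarith
  · have h1 : t * (δ : ℂ) ∉ ball (0 : ℂ) δ := by
      rw [mem_ball_zero_iff, hn, not_lt]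
      push Not at ht
      calc δ = 1 * δ := (one_mul δ).symm
        _ ≤ ‖t‖ * δ := mul_le_mul_of_nonneg_right ht hδ.le
    rw [indicator_of_notMem h1, zero_mul]
    exact bot_le

theorem pf_MRF : T_MRF := by
  obtain ⟨c0, hc0⟩ : ∃ c0 : ℝ, c0 =
      (∫⁻ u in ball (0 : ℂ) 1, ENNReal.ofReal (Real.log (1 / ‖u‖))).toReal := ⟨_, rfl⟩
  obtain ⟨c1, hc1⟩ : ∃ c1 : ℝ, c1 =
      (∫⁻ u : ℂ, ENNReal.ofReal (1 / (‖u‖ ^ 2 + 1) ^ 2)).toReal := ⟨_, rfl⟩
  obtain ⟨V, hV⟩ : ∃ V : ℝ, V = (volume (ball (0 : ℂ) 1)).toReal := ⟨_, rfl⟩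
  have e0 : ∫⁻ u in ball (0 : ℂ) 1, ENNReal.ofReal (Real.log (1 / ‖u‖)) =
      ENNReal.ofReal c0 := by
    rw [hc0, ENNReal.ofReal_toReal mrf_log.ne]
  have e1 : ∫⁻ u : ℂ, ENNReal.ofReal (1 / (‖u‖ ^ 2 + 1) ^ 2) = ENNReal.ofReal c1 := by
    rw [hc1, ENNReal.ofReal_toReal mrf_ker.ne]
  have eV : volume (ball (0 : ℂ) 1) = ENNReal.ofReal V := by
    rw [hV, ENNReal.ofReal_toReal measure_ball_lt_top.ne]
  have h0 : 0 ≤ c0 := hc0 ▸ ENNReal.toReal_nonneg
  have h1 : 0 ≤ c1 := hc1 ▸ ENNReal.toReal_nonneg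
  have hV0 : 0 ≤ V := hV ▸ ENNReal.toReal_nonneg
  refine ⟨c0 + c1 + V + 1, by positivity, fun α β δ θ hβ hδ hδ1 hθ hθ1 => ?_⟩
  have hlog : 0 ≤ Real.log (1 / δ) := Real.log_nonneg (by rw [le_div_iff₀ hδ]; linarith)
  by_cases hβ0 : β = 0
  · have hz : ∀ t : ℂ, ENNReal.ofReal (Real.log (θ / ‖t‖)) *
        ENNReal.ofReal (δ ^ 2 * ‖β‖ ^ 2 / (‖α + t * β‖ ^ 2 + δ ^ 2) ^ 2) = 0 := by
      intro t
      rw [hβ0, norm_zero]
      simp
    simp only [hz, lintegral_zero]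
    exact bot_le
  -- the two parts
  obtain ⟨A, hA⟩ : ∃ A : ℂ → ENNReal, A = (ball (0 : ℂ) δ).indicator (fun s =>
      ENNReal.ofReal (Real.log (1 / ‖s‖)) * ENNReal.ofReal ((δ ^ 2)⁻¹)) := ⟨_, rfl⟩
  obtain ⟨B, hB⟩ : ∃ B : ℂ → ENNReal, B = fun s => ENNReal.ofReal (Real.log (1 / δ)) *
      ENNReal.ofReal (δ ^ 2 / (‖α + s‖ ^ 2 + δ ^ 2) ^ 2) := ⟨_, rfl⟩
  have hAm : Measurable A := by
    rw [hA]
    refine Measurable.indicator ?_ measurableSet_ball
    fun_prop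
  have hKm : Measurable (fun s : ℂ =>
      ENNReal.ofReal (δ ^ 2 / (‖α + s‖ ^ 2 + δ ^ 2) ^ 2)) := by
    fun_prop
  have hBm : Measurable B := by
    rw [hB]
    exact hKm.const_mul _
  have hle : ∫⁻ t in {t : ℂ | ‖t‖ < θ}, ENNReal.ofReal (Real.log (θ / ‖t‖)) *
        ENNReal.ofReal (δ ^ 2 * ‖β‖ ^ 2 / (‖α + t * β‖ ^ 2 + δ ^ 2) ^ 2) ≤
      ∫⁻ t : ℂ, (A (t * β) + B (t * β)) * ENNReal.ofReal (‖β‖ ^ 2) := by
    have hms : MeasurableSet {t : ℂ | ‖t‖ < θ} := measurableSet_lt measurable_norm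
      measurable_const
    rw [← lintegral_indicator hms]
    refine lintegral_mono fun t => ?_
    by_cases ht : ‖t‖ < θ
    · rw [indicator_of_mem (show t ∈ {t : ℂ | ‖t‖ < θ} from ht)]
      rcases (norm_nonneg t).eq_or_lt with h2 | h2
      · rw [← h2]
        simp
      have hb : 0 < ‖β‖ := norm_pos_iff.2 hβ0
      have hs : 0 < ‖t * β‖ := by
        rw [norm_mul]
        positivity
      have hst : ‖t * β‖ ≤ ‖t‖ := by
        rw [norm_mul]
        calc ‖t‖ * ‖β‖ ≤ ‖t‖ * 1 := mul_le_mul_of_nonneg_left hβ h2.le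
          _ = ‖t‖ := mul_one _
      have hl1 : Real.log (θ / ‖t‖) ≤ Real.log (1 / ‖t * β‖) := by
        refine Real.log_le_log (by positivity) ?_
        rw [div_le_div_iff₀ h2 hs]
        calc θ * ‖t * β‖ ≤ 1 * ‖t * β‖ := mul_le_mul_of_nonneg_right hθ1 hs.le
          _ ≤ 1 * ‖t‖ := by linarith
      have e2 : δ ^ 2 * ‖β‖ ^ 2 / (‖α + t * β‖ ^ 2 + δ ^ 2) ^ 2 =
          δ ^ 2 / (‖α + t * β‖ ^ 2 + δ ^ 2) ^ 2 * ‖β‖ ^ 2 := by ring
      rw [e2, ENNReal.ofReal_mul (by positivity), ← mul_assoc]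
      refine mul_le_mul_left ?_ _
      refine (mul_le_mul_left (ENNReal.ofReal_le_ofReal hl1) _).trans ?_
      by_cases hsd : ‖t * β‖ < δ
      · refine le_trans ?_ le_self_add
        rw [hA, indicator_of_mem (show t * β ∈ ball (0 : ℂ) δ by rwa [mem_ball_zero_iff])]
        refine mul_le_mul_right (ENNReal.ofReal_le_ofReal ?_) _
        rw [div_le_iff₀ (by positivity)]
        have h3 : δ ^ 2 ≤ ‖α + t * β‖ ^ 2 + δ ^ 2 := by
          have := sq_nonneg ‖α + t * β‖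
          linarith
        calc δ ^ 2 = (δ ^ 2)⁻¹ * (δ ^ 2) ^ 2 := by field_simp
          _ ≤ (δ ^ 2)⁻¹ * (‖α + t * β‖ ^ 2 + δ ^ 2) ^ 2 :=
              mul_le_mul_of_nonneg_left (pow_le_pow_left₀ (by positivity) h3 2) (by positivity)
      · refine le_trans ?_ le_add_self
        rw [hB]
        refine mul_le_mul_left (ENNReal.ofReal_le_ofReal ?_) _
        push Not at hsd
        refine Real.log_le_log (by positivity) ?_
        exact one_div_le_one_div_of_le hδ hsd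
    · rw [indicator_of_notMem (show t ∉ {t : ℂ | ‖t‖ < θ} from ht)]
      exact bot_le
  refine hle.trans ?_
  rw [mrf_cov hβ0 (g := fun s => A s + B s) (hAm.add hBm), lintegral_add_left hAm]
  have hAi : ∫⁻ s, A s ≤ ENNReal.ofReal (Real.log (1 / δ)) * ENNReal.ofReal V +
      ENNReal.ofReal c0 := by
    rw [hA]
    refine (mrf_small hδ hδ1).trans ?_
    rw [e0, eV]
  have hBi : ∫⁻ s, B s = ENNReal.ofReal (Real.log (1 / δ)) * ENNReal.ofReal c1 := by
    rw [hB, lintegral_const_mul _ hKm, mrf_kernel α hδ, e1]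
  rw [hBi]
  refine (add_le_add_left hAi _).trans ?_
  rw [← ENNReal.ofReal_mul hlog, ← ENNReal.ofReal_mul hlog, ← ENNReal.ofReal_add (by positivity)
    h0, ← ENNReal.ofReal_add (by positivity) (by positivity)]
  refine ENNReal.ofReal_le_ofReal ?_
  have h4 : 0 ≤ c0 * Real.log (1 / δ) := mul_nonneg h0 hlog
  nlinarith [mul_nonneg h0 hlog, mul_nonneg h1 hlog, mul_nonneg hV0 hlog]

end Pool.Agent.H36.EM
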